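import Mathlib
import Pool.Agent.Work.MP_68df70_lc.Defs
import Pool.Agent.Work.MP_68df70_lc.Main

namespace Pool.Agent.Results.MP_68df70_lc.AvgBounds

open Pool.Agent.Work.MP_68df70_lc

/-- **Average `N`-adic complexity of finite sequences.**  For all `N ≥ 2` and all `n`,
`n/2 - (1 + log 2)/(2 log N) ≤ E_n^fin ≤ n/2 + (ω(N) + 3/2)/log N`, where `ω(N)` is the number of
primes dividing `N`; in particular `|E_n^fin - n/2| ≤ 4` for all `N` and `n`. -/
theorem result (N n : ℕ) (hN : 2 ≤ N) :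
    (n : ℝ) / 2 - (1 + Real.log 2) / (2 * Real.log N) ≤ avgComplexity N n ∧
      avgComplexity N n ≤ (n : ℝ) / 2 + ((N.primeFactors.card : ℝ) + 3 / 2) / Real.log N ∧
      |avgComplexity N n - (n : ℝ) / 2| ≤ 4 :=
  ⟨main_lower N n hN, main_upper N n hN, main_abs N n hN⟩

end Pool.Agent.Results.MP_68df70_lc.AvgBounds
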